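import Pool.Agent.H52.SX.FDA

/-!
# Row FD: from the finite ring to the lattice, part 2
-/

set_option autoImplicit false

open NumberField Complex
open scoped nonZeroDivisors

namespace Pool.Agent.H52.SX

open Pool.Agent.H25.HK Pool.Agent.H23.LB Pool.Agent.H23.LC
open Pool.Agent.H28.RC (Rep ft idl)
open Pool.Agent.H29.TC (Gn AC)
open Pool.Agent.H31.SW (dif)
open Pool.Agent.H31.SX

variable {K : Type} [Field K] [NumberField K]

/-- the greatest common divisor through the coordinate -/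
theorem gcd_coord {k : Ideal (𝓞 K)} {L : FI K} {y₀ : K} (hG : Gn k L y₀) {g : K} {b : 𝓞 K}
    (hb : g - (b : K) * y₀ ∈ (k : FI K) * L) {e : Ideal (𝓞 K)} (he : Gcd k L g e) :
    e = k ⊔ Ideal.span {b} := by
  apply le_antisymm
  · apply he.min _ le_sup_left
    rw [mem_iff_coord hG hb _ le_sup_left]
    exact (le_sup_right : Ideal.span {b} ≤ _) (Ideal.mem_span_singleton_self b)
  · apply sup_le he.le
    rw [Ideal.span_le, Set.singleton_subset_iff]
    exact (mem_iff_coord hG hb e he.le).1 he.mem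

theorem sup_mul_sup (k A B : Ideal (𝓞 K)) : (k ⊔ A) * (k ⊔ B) ≤ k ⊔ A * B := by
  rw [Ideal.sup_mul, Ideal.mul_sup, Ideal.mul_sup]
  refine sup_le (sup_le ?_ ?_) (sup_le ?_ le_sup_right)
  · exact Ideal.mul_le_right.trans le_sup_left
  · exact Ideal.mul_le_left.trans le_sup_left
  · exact Ideal.mul_le_right.trans le_sup_left

theorem sup_prod (k : Ideal (𝓞 K)) (b₁ b₂ b₃ : 𝓞 K) :
    k ⊔ (k ⊔ Ideal.span {b₁}) * (k ⊔ Ideal.span {b₂}) * (k ⊔ Ideal.span {b₃}) =
      k ⊔ Ideal.span {b₁ * b₂ * b₃} := by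
  rw [← Ideal.span_singleton_mul_span_singleton, ← Ideal.span_singleton_mul_span_singleton]
  apply le_antisymm
  · apply sup_le le_sup_left
    exact (Ideal.mul_mono_left (sup_mul_sup _ _ _)).trans (sup_mul_sup _ _ _)
  · apply sup_le le_sup_left
    exact le_sup_of_le_right (Ideal.mul_mono (Ideal.mul_mono le_sup_right le_sup_right)
      le_sup_right)

theorem card_quot (J : Ideal (𝓞 K)) : (Nat.card (𝓞 K ⧸ J) : ℝ) = Nf K J := by
  unfold Nf
  rw [Ideal.absNorm_apply, Submodule.cardQuot_apply]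

theorem card_quot_quot (k J : Ideal (𝓞 K)) :
    (Nat.card ((𝓞 K ⧸ k) ⧸ J.map (Ideal.Quotient.mk k)) : ℝ) = Nf K (k ⊔ J) := by
  rw [← card_quot]
  congr 1
  exact Nat.card_congr (DoubleQuot.quotQuotEquivQuotSup k J).toEquiv

theorem nf_pos {J : Ideal (𝓞 K)} (hJ : J ≠ ⊥) : 0 < Nf K J := by
  unfold Nf
  have : Ideal.absNorm J ≠ 0 := by
    rw [Ne, Ideal.absNorm_eq_zero_iff]
    exact hJ
  positivity

theorem nf_one_le {J : Ideal (𝓞 K)} (hJ : J ≠ ⊥) : 1 ≤ Nf K J := by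
  unfold Nf
  have : Ideal.absNorm J ≠ 0 := by
    rw [Ne, Ideal.absNorm_eq_zero_iff]
    exact hJ
  exact_mod_cast Nat.one_le_iff_ne_zero.2 this

theorem nf_mul (I J : Ideal (𝓞 K)) : Nf K (I * J) = Nf K I * Nf K J := by
  unfold Nf
  rw [map_mul]
  push_cast
  rfl

theorem nf_le {I J : Ideal (𝓞 K)} (hI : I ≠ ⊥) (h : I ≤ J) : Nf K J ≤ Nf K I := by
  obtain ⟨c, hc⟩ := Ideal.dvd_iff_le.2 h
  have hc0 : c ≠ ⊥ := by
    rintro rfl
    exact hI (by rw [hc, Ideal.mul_bot])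
  have h1 := nf_one_le hc0
  have h2 : 0 ≤ Nf K J := by
    unfold Nf
    positivity
  rw [hc, nf_mul]
  nlinarith

/-- the number of solutions of `b δ = 0` -/
theorem ncard_ann (hRA : X_RA) {k : Ideal (𝓞 K)} [Fintype (𝓞 K ⧸ k)] {θ : 𝓞 K ⧸ k → ℂ}
    (hθ : ND θ) (b : 𝓞 K) :
    ({δ : 𝓞 K ⧸ k | Ideal.Quotient.mk k b * δ = 0}.ncard : ℝ) = Nf K (k ⊔ Ideal.span {b}) := by
  set I : Ideal (𝓞 K ⧸ k) := (Ideal.span {b}).map (Ideal.Quotient.mk k) with hI
  have hI' : I = Ideal.span {Ideal.Quotient.mk k b} := by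
    rw [hI, Ideal.map_span, Set.image_singleton]
  have h1 := (hRA _ θ hθ I).2.2.1
  have h2 : {y : 𝓞 K ⧸ k | ∀ t ∈ I, y * t = 0} = {δ | Ideal.Quotient.mk k b * δ = 0} := by
    ext y
    simp only [Set.mem_ofPred_eq, hI']
    constructor
    · intro h
      rw [mul_comm]
      exact h _ (Ideal.mem_span_singleton_self _)
    · intro h t ht
      obtain ⟨s, rfl⟩ := Ideal.mem_span_singleton'.1 ht
      rw [show y * (s * Ideal.Quotient.mk k b) = s * (Ideal.Quotient.mk k b * y) by ring, h,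
        mul_zero]
  rw [h2] at h1
  have h3 := Submodule.card_eq_card_quotient_mul_card I
  have h4 : (Fintype.card (𝓞 K ⧸ k) : ℝ) = (Nat.card I : ℝ) *
      (Nat.card ((𝓞 K ⧸ k) ⧸ I) : ℝ) := by
    rw [← Nat.card_eq_fintype_card, h3]
    push_cast
    ring
  have h5 : (0 : ℝ) < Nat.card I := by
    have : 0 < Nat.card I := Nat.card_pos
    exact_mod_cast this
  rw [h4] at h1
  have h6 := mul_left_cancel₀ h5.ne' h1
  rw [h6, hI, card_quot_quot]

theorem van_mem {k r d G : Ideal (𝓞 K)} {b s : 𝓞 K} (hd : k = G * d) (hb : b ∈ G)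
    (hs : s ∈ r * d) : Ideal.Quotient.mk k s ∈ r.map (Ideal.Quotient.mk k) ∧
      Ideal.Quotient.mk k b * Ideal.Quotient.mk k s = 0 := by
  have hsr : s ∈ r := (Ideal.mul_le_left : r * d ≤ r) hs
  have hsd : s ∈ d := (Ideal.mul_le_right : r * d ≤ d) hs
  have h1 : b * s ∈ G * d := Ideal.mul_mem_mul hb hsd
  rw [← hd] at h1
  refine ⟨Ideal.mem_map_of_mem (Ideal.Quotient.mk k) hsr, ?_⟩
  rw [← map_mul]
  exact Ideal.Quotient.eq_zero_iff_mem.2 h1

theorem mk_of_sup {k J : Ideal (𝓞 K)} {a : 𝓞 K} (h : a ∈ k ⊔ J) :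
    ∃ s ∈ J, Ideal.Quotient.mk k a = Ideal.Quotient.mk k s := by
  obtain ⟨κ, hκ, s, hs, hks⟩ := Submodule.mem_sup.1 h
  refine ⟨s, hs, ?_⟩
  rw [Ideal.Quotient.eq, ← hks]
  have : κ + s - s = κ := by ring
  rw [this]
  exact hκ

open scoped Classical in
theorem pf_FD (hRA : X_RA) : X_FD := by
  intro K _ _ k r hk hr _ θ W hθ hW L y₀ ρ hL hG F hF
  have hN0 : 0 < Nf K k := nf_pos hk
  set c : ℝ := Real.sqrt (Nf K k) with hc
  have hc0 : 0 < c := Real.sqrt_pos.2 hN0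
  have hc2 : c ^ 2 = Nf K k := Real.sq_sqrt hN0.le
  have hcard : (Fintype.card (𝓞 K ⧸ k) : ℝ) = Nf K k := by
    rw [← card_quot, Nat.card_eq_fintype_card]
  have hkL : ∀ {g : K}, g ∈ (r : FI K) * L → ∃ b : 𝓞 K, g - (b : K) * y₀ ∈ (k : FI K) * L ∧
      Ideal.Quotient.mk k b ∈ r.map (Ideal.Quotient.mk k) := by
    intro g hg
    obtain ⟨b, -, hb⟩ := hG.gen g (le_FI r L hg)
    refine ⟨b, hb, ?_⟩
    rw [Ideal.mem_quotient_iff_mem_sup, sup_comm]
    rw [← mem_iff_coord hG hb (k ⊔ r) le_sup_left]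
    exact mono_FI le_sup_right L hg
  refine ⟨?_, ?_, ?_⟩
  · intro x hx
    obtain ⟨a, -, ha⟩ := hG.gen x hx
    rw [hF a x ha, norm_div, norm_mul, ca_norm, one_mul, Complex.norm_real,
      Real.norm_of_nonneg hc0.le, div_le_one hc0]
    have h1 := hW.norm (Ideal.Quotient.mk k a)
    rw [hcard, ← hc2] at h1
    exact (sq_le_sq₀ (norm_nonneg _) hc0.le).1 h1
  · intro g₁ hg₁ g₂ hg₂ g₃ hg₃ x hx t ht
    obtain ⟨b₁, hb₁, -⟩ := hkL hg₁
    obtain ⟨b₂, hb₂, -⟩ := hkL hg₂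
    obtain ⟨b₃, hb₃, -⟩ := hkL hg₃
    obtain ⟨a, -, ha⟩ := hG.gen x hx
    have ha' : x + t - (a : K) * y₀ ∈ (k : FI K) * L := by
      have h1 := mem_add ha ht
      have h2 : x - (a : K) * y₀ + t = x + t - (a : K) * y₀ := by ring
      rwa [h2] at h1
    rw [dif_coord hF hb₁ hb₂ hb₃ ha', dif_coord hF hb₁ hb₂ hb₃ ha]
  · intro g₁ hg₁ g₂ hg₂ g₃ hg₃ e₁ e₂ e₃ he₁ he₂ he₃
    obtain ⟨b₁, hb₁, hI₁⟩ := hkL hg₁
    obtain ⟨b₂, hb₂, hI₂⟩ := hkL hg₂
    obtain ⟨b₃, hb₃, hI₃⟩ := hkL hg₃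
    rw [gcd_coord hG hb₁ he₁, gcd_coord hG hb₂ he₂, gcd_coord hG hb₃ he₃, sup_prod]
    set b := b₁ * b₂ * b₃ with hb
    set G := k ⊔ Ideal.span {b} with hGdef
    have hG0 : G ≠ ⊥ := fun h => hk (le_bot_iff.1 (h ▸ (le_sup_left : k ≤ G)))
    have hbG : b ∈ G := (le_sup_right : Ideal.span {b} ≤ G) (Ideal.mem_span_singleton_self b)
    obtain ⟨d, hd⟩ := Ideal.dvd_iff_le.2 (le_sup_left : k ≤ G)
    have hd0 : d ≠ ⊥ := by
      rintro rfl
      exact hk (by rw [hd, Ideal.mul_bot])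
    set s₀ := k ⊔ r * d with hs₀
    obtain ⟨e, he⟩ := Ideal.dvd_iff_le.2 (le_sup_left : k ≤ s₀)
    have he0 : e ≠ ⊥ := by
      rintro rfl
      exact hk (by rw [he, Ideal.mul_bot])
    refine ⟨e, he0, ?_, ?_⟩
    · have h1 : Nf K s₀ ≤ Nf K r * Nf K d := by
        rw [← nf_mul]
        exact nf_le (mul_ne_zero hr hd0) le_sup_right
      have h2 : Nf K k = Nf K G * Nf K d := by
        rw [← nf_mul, ← hd]
      have h3 : Nf K k = Nf K s₀ * Nf K e := by
        rw [← nf_mul, ← he]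
      have h4 := nf_pos hd0
      have h5 := nf_pos he0
      have h6 : Nf K G * Nf K d ≤ (Nf K e * Nf K r) * Nf K d := by
        rw [← h2, h3]
        calc Nf K s₀ * Nf K e ≤ (Nf K r * Nf K d) * Nf K e := by gcongr
          _ = _ := by ring
      exact le_of_mul_le_mul_right h6 h4
    · intro X hX y hy
      have hkL0 : (k : FI K) * L ≠ 0 :=
        mul_ne_zero (FractionalIdeal.coeIdeal_ne_zero.mpr hk) hL
      have hyk := (mem_du hkL0).1 hy
      -- the additive character of the ring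
      set φ : 𝓞 K ⧸ k → ℂ := fun q => ca K (((Quotient.out q : 𝓞 K) : K) * y₀) y with hφ
      have hφm : ∀ (a : 𝓞 K) (z : K), z - (a : K) * y₀ ∈ (k : FI K) * L →
          ca K z y = φ (Ideal.Quotient.mk k a) := by
        intro a z hz
        have h1 : Ideal.Quotient.mk k (Quotient.out (Ideal.Quotient.mk k a)) =
            Ideal.Quotient.mk k a := Quotient.out_eq (Ideal.Quotient.mk k a)
        set a' : 𝓞 K := Quotient.out (Ideal.Quotient.mk k a) with ha'
        have h2 : a - a' ∈ k := Ideal.Quotient.eq.1 h1.symm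
        have h3 : ((a - a' : 𝓞 K) : K) * y₀ ∈ (k : FI K) * L := (hG.iff _ k le_rfl).2 h2
        have h4 : z = (a' : K) * y₀ + ((z - (a : K) * y₀) + ((a - a' : 𝓞 K) : K) * y₀) := by
          rw [coe_sub]
          ring
        have h5 : φ (Ideal.Quotient.mk k a) = ca K ((a' : K) * y₀) y := rfl
        rw [h5]
        nth_rewrite 1 [h4]
        rw [ca_comm, ca_add, ca_comm y, ca_comm y, hyk _ (mem_add hz h3), mul_one]
      have hself : ∀ a : 𝓞 K, (a : K) * y₀ - (a : K) * y₀ ∈ (k : FI K) * L := fun a => by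
        rw [sub_self]
        exact mem_zero
      obtain ⟨ξ, hξ⟩ := (hRA _ θ hθ ⊤).1 φ (by
        intro x _ x' _
        obtain ⟨a, rfl⟩ := Ideal.Quotient.mk_surjective x
        obtain ⟨a', rfl⟩ := Ideal.Quotient.mk_surjective x'
        rw [← map_add, ← hφm (a + a') _ (hself _), ← hφm a _ (hself _), ← hφm a' _ (hself _),
          coe_add, add_mul, ca_comm, ca_add, ca_comm y, ca_comm y]) (fun x _ => ca_norm _ _)
      have hξ' : ∀ t, φ t = θ (t * ξ) := fun t => by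
        rw [hξ t Submodule.mem_top, mul_comm]
      set D3 := dif (Ideal.Quotient.mk k b₃) (dif (Ideal.Quotient.mk k b₂)
        (dif (Ideal.Quotient.mk k b₁) W)) with hD3
      have hft : ft K X (dif g₃ (dif g₂ (dif g₁ F))) y =
          (∑ α, D3 α * θ (α * ξ)) / (c : ℂ) ^ 8 := by
        have h1 := sum_coord hG hX (fun x => dif g₃ (dif g₂ (dif g₁ F)) x * ca K x y)
          (fun α => D3 α * θ (α * ξ) / (c : ℂ) ^ 8) (by
            intro a z _ hz
            rw [dif_coord hF hb₁ hb₂ hb₃ hz, hφm a z hz, hξ']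
            ring)
        rw [Finset.sum_div, ← h1]
        rfl
      have hbm : Ideal.Quotient.mk k b₁ * Ideal.Quotient.mk k b₂ * Ideal.Quotient.mk k b₃ =
          Ideal.Quotient.mk k b := by
        rw [hb, map_mul, map_mul]
      constructor
      · have h1 := hW.cor _ hI₁ _ hI₂ _ hI₃ ξ
        rw [hbm, ncard_ann hRA hθ, hcard, card_quot_quot, ← hGdef, ← hD3] at h1
        have h2 : Nf K (k ⊔ r) ≤ Nf K r := nf_le hr le_sup_right
        have h3 : 0 ≤ Nf K (k ⊔ r) := by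
          unfold Nf
          positivity
        have h4 : 0 < Nf K G := nf_pos hG0
        have h5 := nf_one_le hr
        rw [hft, norm_div, norm_pow, Complex.norm_real, Real.norm_of_nonneg hc0.le]
        rw [div_le_iff₀ (by positivity)]
        apply (sq_le_sq₀ (norm_nonneg _) (by positivity)).1
        refine h1.trans ?_
        have h6 : (Nf K r ^ 2 * √(Nf K k * Nf K G) * c ^ 8) ^ 2 =
            Nf K r ^ 4 * Nf K G * Nf K k ^ 9 := by
          rw [mul_pow, mul_pow, Real.sq_sqrt (by positivity)]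
          rw [show (c ^ 8) ^ 2 = (c ^ 2) ^ 8 by ring, hc2]
          ring
        rw [h6]
        have h7 : Nf K (k ⊔ r) ^ 3 ≤ Nf K r ^ 4 := by
          calc Nf K (k ⊔ r) ^ 3 ≤ Nf K r ^ 3 := by gcongr
            _ ≤ Nf K r ^ 4 := pow_le_pow_right₀ h5 (by norm_num)
        calc Nf K k ^ 9 * Nf K (k ⊔ r) ^ 3 * Nf K G ≤ Nf K k ^ 9 * Nf K r ^ 4 * Nf K G := by
              gcongr
          _ = _ := by ring
      · intro hne
        have h1 : ∑ α, D3 α * θ (α * ξ) ≠ 0 := by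
          intro h
          apply hne
          rw [hft, h, zero_div]
        have h2 := hW.van _ hI₁ _ hI₂ _ hI₃ ξ h1
        rw [hbm] at h2
        have hs0L : (s₀ : FI K) * L ≠ 0 := by
          refine mul_ne_zero (FractionalIdeal.coeIdeal_ne_zero.mpr ?_) hL
          intro h
          exact hk (le_bot_iff.1 (h ▸ (le_sup_left : k ≤ s₀)))
        have h3 : y ∈ du K ((s₀ : FI K) * L) := by
          rw [mem_du hs0L]
          intro z hz
          obtain ⟨a, -, ha⟩ := hG.gen z (le_FI s₀ L hz)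
          have h4 : a ∈ s₀ := (mem_iff_coord hG ha s₀ le_sup_left).1 hz
          obtain ⟨s, hs, h5⟩ := mk_of_sup h4
          rw [hφm a z ha, hξ', h5]
          obtain ⟨h6, h7⟩ := van_mem hd hbG hs
          exact h2 _ h6 h7
        have h6 : (k : FI K) * L = (e : FI K) * ((s₀ : FI K) * L) := by
          rw [← mul_assoc, ← FractionalIdeal.coeIdeal_mul, mul_comm e s₀, ← he]
        rw [h6, mul_du he0]
        exact h3

end Pool.Agent.H52.SX
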