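import Pool.Agent.H31.SX.TargetsR
import Pool.Agent.H31.SX.TargetsD

/-!
# Row FD: from the finite ring to the lattice, part 1
-/

set_option autoImplicit false

open NumberField Complex
open scoped nonZeroDivisors

namespace Pool.Agent.H52.SX

open Pool.Agent.H25.HK Pool.Agent.H23.LB Pool.Agent.H23.LC
open Pool.Agent.H28.RC (Rep ft idl)
open Pool.Agent.H29.TC (Gn AC)
open Pool.Agent.H31.SW (dif)
open Pool.Agent.H31.SX

variable {K : Type} [Field K] [NumberField K]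

theorem mem_add {M : FI K} {x y : K} (hx : x ∈ M) (hy : y ∈ M) : x + y ∈ M :=
  (M : Submodule (𝓞 K) K).add_mem hx hy

theorem mem_sub {M : FI K} {x y : K} (hx : x ∈ M) (hy : y ∈ M) : x - y ∈ M :=
  (M : Submodule (𝓞 K) K).sub_mem hx hy

theorem mem_neg {M : FI K} {x : K} (hx : x ∈ M) : -x ∈ M :=
  (M : Submodule (𝓞 K) K).neg_mem hx

theorem mem_zero {M : FI K} : (0 : K) ∈ M := (M : Submodule (𝓞 K) K).zero_mem

theorem mem_smul (M : FI K) (a : 𝓞 K) {x : K} (hx : x ∈ M) : (a : K) * x ∈ M := by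
  have h3 : (a : K) * x = a • x := by rw [Algebra.smul_def]
  rw [h3]
  exact (M : Submodule (𝓞 K) K).smul_mem a hx

theorem mono_FI {I J : Ideal (𝓞 K)} (h : I ≤ J) (M : FI K) : (I : FI K) * M ≤ (J : FI K) * M :=
  mul_le_mul_left ((FractionalIdeal.coeIdeal_le_coeIdeal K).mpr h) M

theorem le_FI (I : Ideal (𝓞 K)) (M : FI K) {x : K} (hx : x ∈ (I : FI K) * M) : x ∈ M := by
  have h1 : (I : FI K) * M ≤ 1 * M := by
    have h2 : (I : FI K) ≤ 1 := FractionalIdeal.coeIdeal_le_one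
    exact mul_le_mul_left h2 M
  rw [one_mul] at h1
  exact h1 hx

theorem coe_add (a b : 𝓞 K) : ((a + b : 𝓞 K) : K) = (a : K) + (b : K) :=
  map_add (algebraMap (𝓞 K) K) a b

theorem coe_sub (a b : 𝓞 K) : ((a - b : 𝓞 K) : K) = (a : K) - (b : K) :=
  map_sub (algebraMap (𝓞 K) K) a b

/-! ### The additive character -/

theorem ca_add (r x y : K) : ca K r (x + y) = ca K r x * ca K r y := by
  unfold ca
  rw [mul_add, map_add, Rat.cast_add, mul_add, Complex.exp_add]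

theorem ca_comm (r x : K) : ca K r x = ca K x r := by
  unfold ca
  rw [mul_comm r x]

theorem ca_norm (r x : K) : ‖ca K r x‖ = 1 := by
  unfold ca
  have h : 2 * (Real.pi : ℂ) * I * ((Algebra.trace ℚ K (r * x) : ℚ) : ℂ) =
      ((2 * Real.pi * ((Algebra.trace ℚ K (r * x) : ℚ) : ℝ) : ℝ) : ℂ) * I := by
    push_cast
    ring
  rw [h]
  exact Complex.norm_exp_ofReal_mul_I _

theorem ca_mul_conj (r x : K) : ca K r x * (starRingEnd ℂ) (ca K r x) = 1 := by
  rw [Complex.mul_conj, Complex.normSq_eq_norm_sq, ca_norm]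
  simp

theorem ca_one_iff (r x : K) : ca K r x = 1 ↔ ∃ m : ℤ, Algebra.trace ℚ K (r * x) = m := by
  unfold ca
  rw [Complex.exp_eq_one_iff]
  constructor
  · rintro ⟨m, hm⟩
    refine ⟨m, ?_⟩
    have h1 : (2 * (Real.pi : ℂ) * I) ≠ 0 := Complex.two_pi_I_ne_zero
    have h2 : ((Algebra.trace ℚ K (r * x) : ℚ) : ℂ) = (m : ℂ) := by
      apply mul_left_cancel₀ h1
      rw [hm]
      ring
    exact_mod_cast h2
  · rintro ⟨m, hm⟩
    refine ⟨m, ?_⟩
    rw [hm]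
    push_cast
    ring

theorem mem_du {M : FI K} (hM : M ≠ 0) {y : K} : y ∈ du K M ↔ ∀ z ∈ M, ca K z y = 1 := by
  unfold du
  rw [FractionalIdeal.mem_dual hM]
  constructor
  · intro h z hz
    obtain ⟨m, hm⟩ := h z hz
    rw [ca_one_iff]
    refine ⟨m, ?_⟩
    rw [Algebra.traceForm_apply] at hm
    rw [mul_comm, ← hm]
    simp
  · intro h z hz
    obtain ⟨m, hm⟩ := (ca_one_iff _ _).1 (h z hz)
    refine ⟨m, ?_⟩
    rw [Algebra.traceForm_apply, mul_comm, hm]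
    simp

theorem mul_du {f : Ideal (𝓞 K)} (hf : f ≠ ⊥) (M : FI K) :
    (f : FI K) * du K ((f : FI K) * M) = du K M := by
  have hmul : ∀ M : FI K, du K M = du K 1 * M⁻¹ := fun M =>
    FractionalIdeal.dual_eq_mul_inv ℤ ℚ M
  have hf0 : (f : FI K) ≠ 0 := FractionalIdeal.coeIdeal_ne_zero.mpr hf
  rw [hmul ((f : FI K) * M), hmul M, mul_inv]
  calc (f : FI K) * (du K 1 * ((f : FI K)⁻¹ * M⁻¹))
      = ((f : FI K) * (f : FI K)⁻¹) * (du K 1 * M⁻¹) := by ring
    _ = du K 1 * M⁻¹ := by rw [mul_inv_cancel₀ hf0, one_mul]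

/-! ### Coordinates -/

/-- membership through the coordinate -/
theorem mem_iff_coord {k : Ideal (𝓞 K)} {L : FI K} {y₀ : K} (hG : Gn k L y₀) {g : K} {a : 𝓞 K}
    (ha : g - (a : K) * y₀ ∈ (k : FI K) * L) (j : Ideal (𝓞 K)) (hj : k ≤ j) :
    g ∈ (j : FI K) * L ↔ a ∈ j := by
  rw [← hG.iff a j hj]
  have h1 := mono_FI hj L ha
  constructor
  · intro h
    have h2 := mem_sub h h1
    have h3 : g - (g - (a : K) * y₀) = (a : K) * y₀ := by ring
    rwa [h3] at h2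
  · intro h
    have h2 := mem_add h1 h
    have h3 : g - (a : K) * y₀ + (a : K) * y₀ = g := by ring
    rwa [h3] at h2

/-- the three differences through the coordinates -/
theorem dif_coord {k : Ideal (𝓞 K)} {L : FI K} {y₀ ρ : K} {W : 𝓞 K ⧸ k → ℂ} {F : K → ℂ} {c : ℝ}
    (hF : ∀ (a : 𝓞 K) (y : K), y - (a : K) * y₀ ∈ (k : FI K) * L →
      F y = ca K ρ y * W (Ideal.Quotient.mk k a) / (c : ℂ))
    {g₁ g₂ g₃ y : K} {b₁ b₂ b₃ a : 𝓞 K} (h₁ : g₁ - (b₁ : K) * y₀ ∈ (k : FI K) * L)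
    (h₂ : g₂ - (b₂ : K) * y₀ ∈ (k : FI K) * L) (h₃ : g₃ - (b₃ : K) * y₀ ∈ (k : FI K) * L)
    (ha : y - (a : K) * y₀ ∈ (k : FI K) * L) :
    dif g₃ (dif g₂ (dif g₁ F)) y =
      dif (Ideal.Quotient.mk k b₃) (dif (Ideal.Quotient.mk k b₂) (dif (Ideal.Quotient.mk k b₁) W))
        (Ideal.Quotient.mk k a) / (c : ℂ) ^ 8 := by
  have hadd : ∀ {y g : K} {a b : 𝓞 K}, y - (a : K) * y₀ ∈ (k : FI K) * L →
      g - (b : K) * y₀ ∈ (k : FI K) * L →
      (y + g) - ((a + b : 𝓞 K) : K) * y₀ ∈ (k : FI K) * L := by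
    intro y g a b h h'
    have h2 := mem_add h h'
    have h3 : y - (a : K) * y₀ + (g - (b : K) * y₀) = (y + g) - ((a + b : 𝓞 K) : K) * y₀ := by
      rw [coe_add]
      ring
    rwa [h3] at h2
  have hd1 : ∀ (a : 𝓞 K) (y : K), y - (a : K) * y₀ ∈ (k : FI K) * L →
      dif g₁ F y = ca K ρ g₁ * dif (Ideal.Quotient.mk k b₁) W (Ideal.Quotient.mk k a) /
        (c : ℂ) ^ 2 := by
    intro a y h
    unfold dif
    rw [hF (a + b₁) (y + g₁) (hadd h h₁), hF a y h, ca_add, map_add, map_div₀, map_mul,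
      Complex.conj_ofReal]
    have e := ca_mul_conj ρ y
    rw [div_mul_div_comm, ← sq]
    congr 1
    linear_combination (ca K ρ g₁ * W (Ideal.Quotient.mk k a + Ideal.Quotient.mk k b₁) *
      (starRingEnd ℂ) (W (Ideal.Quotient.mk k a))) * e
  have hd2 : ∀ (a : 𝓞 K) (y : K), y - (a : K) * y₀ ∈ (k : FI K) * L →
      dif g₂ (dif g₁ F) y = dif (Ideal.Quotient.mk k b₂) (dif (Ideal.Quotient.mk k b₁) W)
        (Ideal.Quotient.mk k a) / (c : ℂ) ^ 4 := by
    intro a y h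
    have e := ca_mul_conj ρ g₁
    rw [dif, hd1 (a + b₂) (y + g₂) (hadd h h₂), hd1 a y h, map_add, map_div₀, map_mul, map_pow,
      Complex.conj_ofReal, div_mul_div_comm]
    rw [show dif (Ideal.Quotient.mk k b₂) (dif (Ideal.Quotient.mk k b₁) W)
        (Ideal.Quotient.mk k a) = dif (Ideal.Quotient.mk k b₁) W
        (Ideal.Quotient.mk k a + Ideal.Quotient.mk k b₂) *
        (starRingEnd ℂ) (dif (Ideal.Quotient.mk k b₁) W (Ideal.Quotient.mk k a)) from rfl]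
    rw [show (c : ℂ) ^ 2 * (c : ℂ) ^ 2 = (c : ℂ) ^ 4 by ring]
    congr 1
    linear_combination (dif (Ideal.Quotient.mk k b₁) W
      (Ideal.Quotient.mk k a + Ideal.Quotient.mk k b₂) *
      (starRingEnd ℂ) (dif (Ideal.Quotient.mk k b₁) W (Ideal.Quotient.mk k a))) * e
  rw [dif, hd2 (a + b₃) (y + g₃) (hadd ha h₃), hd2 a y ha, map_add, map_div₀, map_pow,
    Complex.conj_ofReal, div_mul_div_comm]
  rw [show (c : ℂ) ^ 4 * (c : ℂ) ^ 4 = (c : ℂ) ^ 8 by ring]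
  rfl

/-- sums over representatives -/
theorem sum_coord {k : Ideal (𝓞 K)} [Fintype (𝓞 K ⧸ k)] {L : FI K} {y₀ : K} (hG : Gn k L y₀)
    {X : Finset K} (hX : Rep K k L X) (f : K → ℂ) (H : 𝓞 K ⧸ k → ℂ)
    (hfH : ∀ (a : 𝓞 K) (y : K), y ∈ L → y - (a : K) * y₀ ∈ (k : FI K) * L →
      f y = H (Ideal.Quotient.mk k a)) : ∑ x ∈ X, f x = ∑ α, H α := by
  classical
  choose! α hα0 hα using hG.gen
  refine Finset.sum_bij (fun x _ => Ideal.Quotient.mk k (α x)) ?_ ?_ ?_ ?_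
  · intro x _
    exact Finset.mem_univ _
  · intro x hx x' hx' h
    have h1 : α x - α x' ∈ k := Ideal.Quotient.eq.mp h
    have hxM := hX.1 x hx
    have hxM' := hX.1 x' hx'
    have h2 : x - x' ∈ (k : FI K) * L := by
      rw [mem_iff_coord hG (a := α x - α x') _ k le_rfl]
      · exact h1
      · have h3 := mem_sub (hα x hxM) (hα x' hxM')
        have h4 : x - (α x : K) * y₀ - (x' - (α x' : K) * y₀) =
            x - x' - ((α x - α x' : 𝓞 K) : K) * y₀ := by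
          rw [coe_sub]
          ring
        rwa [h4] at h3
    obtain ⟨r0, _, huniq⟩ := hX.2 x hxM
    have e1 := huniq x ⟨hx, by
      rw [sub_self]
      exact mem_zero⟩
    have e2 := huniq x' ⟨hx', h2⟩
    rw [e1, e2]
  · intro q _
    obtain ⟨a, rfl⟩ := Ideal.Quotient.mk_surjective q
    have hm : (a : K) * y₀ ∈ L := mem_smul L a hG.mem
    obtain ⟨r, ⟨hr, hr'⟩, _⟩ := hX.2 _ hm
    refine ⟨r, hr, ?_⟩
    rw [Ideal.Quotient.eq]
    rw [← mem_iff_coord hG (g := r - (a : K) * y₀) _ k le_rfl]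
    · have h1 := mem_neg hr'
      have h2 : -((a : K) * y₀ - r) = r - (a : K) * y₀ := by ring
      rwa [h2] at h1
    · have h1 := hα r (hX.1 r hr)
      have h2 : r - (α r : K) * y₀ = r - (a : K) * y₀ - ((α r - a : 𝓞 K) : K) * y₀ := by
        rw [coe_sub]
        ring
      rwa [h2] at h1
  · intro x hx
    exact hfH (α x) x (hX.1 x hx) (hα x (hX.1 x hx))

end Pool.Agent.H52.SX
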